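import Pool.Agent.Lib.MP_98dabe_lc.Analyse

/-!
The exact set of cardinalities of maximal chains in the partition lattice of an infinite set.
-/

open Cardinal

namespace Pool.Agent.Results.MP_98dabe_lc.Spectrum

universe u

open Pool.Agent.Lib.MP_98dabe_lc in
theorem result (X : Type u) [Infinite X] (μ : Cardinal.{u}) :
    (∃ C : Set (Setoid X), IsMaxChain (· ≤ ·) C ∧ #C = μ) ↔
      (μ ≤ #X ∧ ∃ D : Set (Set μ.out), IsChain (· ⊆ ·) D ∧ #D = #X) ∨
      (#X ≤ μ ∧ ∃ D : Set (Set X), IsMaxChain (· ⊆ ·) D ∧ #D = μ) := by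
  refine ⟨?_, ?_⟩
  · rintro ⟨C, hC, rfl⟩
    rcases le_total (#C) (#X) with h | h
    · exact Or.inl ⟨h, exists_chain_of_max hC (mk_out _).ge⟩
    · exact Or.inr ⟨h, exists_maxChain_sets hC h⟩
  · rintro (⟨h, D, hD, hDX⟩ | ⟨-, D, hD, rfl⟩)
    · have := short_chain (X := X) (W := μ.out) (by rwa [mk_out]) hD hDX
      rwa [mk_out] at this
    · exact long_chain hD

end Pool.Agent.Results.MP_98dabe_lc.Spectrum
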